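import Pool.Agent.TIA.Final

set_option autoImplicit false

namespace Pool.Agent.Results.MP_904319_lc.MisPolynomial

/-- The code of a graph on `{0, ..., n - 1}`: `n` ones, a zero, and the rows of the adjacency matrix. -/
noncomputable def graphCode {n : ℕ} (G : SimpleGraph (Fin n)) : List Bool :=
  List.replicate n true ++ false ::
    ((List.finRange n).flatMap fun i => (List.finRange n).map fun j =>
      @decide (G.Adj i j) (Classical.dec _))

/-- The code of a set of vertices: its characteristic vector. -/
def setCode {n : ℕ} (S : Finset (Fin n)) : List Bool := (List.finRange n).map fun i => decide (i ∈ S)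

/-- For all `k` and `s`, MAXIMUM INDEPENDENT SET is solvable in polynomial time on the graphs with no
induced `P_k` and no induced `K_{s,s}`. -/
theorem result (k s : ℕ) :
    ∃ f : List Bool → List Bool, NPC.PolyTime NPC.encStr NPC.encStr f ∧
      ∀ (n : ℕ) (G : SimpleGraph (Fin n)),
        IsEmpty (SimpleGraph.pathGraph k ↪g G) →
        IsEmpty (completeBipartiteGraph (Fin s) (Fin s) ↪g G) →
        ∃ S : Finset (Fin n), f (graphCode G) = setCode S ∧ G.IsIndepSet (S : Set (Fin n)) ∧
          ∀ T : Finset (Fin n), G.IsIndepSet (T : Set (Fin n)) → T.card ≤ S.card :=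
  Pool.Agent.TIA.mis_poly k s

end Pool.Agent.Results.MP_904319_lc.MisPolynomial
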