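import Pool.Agent.TIA.Final

set_option autoImplicit false

namespace Pool.Agent.Results.MP_904319_lc.TreeAlpha

/-- For all `k` and `s` there is `C` such that every finite graph with no induced `P_k` and no induced
`K_{s,s}` has a tree decomposition all of whose bags induce subgraphs of independence number at most
`C`. -/
theorem result (k s : ℕ) :
    ∃ C : ℕ, ∀ (V : Type) [Finite V] (G : SimpleGraph V),
      IsEmpty (SimpleGraph.pathGraph k ↪g G) →
      IsEmpty (completeBipartiteGraph (Fin s) (Fin s) ↪g G) →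
      ∃ (m : ℕ) (T : SimpleGraph (Fin m)) (B : Fin m → Set V), T.IsTree ∧
        (∀ v, ∃ i, v ∈ B i) ∧ (∀ u v, G.Adj u v → ∃ i, u ∈ B i ∧ v ∈ B i) ∧
        (∀ v, (T.induce {i | v ∈ B i}).Preconnected) ∧
        ∀ i, ∀ I : Finset V, (I : Set V) ⊆ B i → G.IsIndepSet (I : Set V) → I.card ≤ C :=
  Pool.Agent.TIA.tree_alpha k s

end Pool.Agent.Results.MP_904319_lc.TreeAlpha
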